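import Pool.Agent.H11.NW.Pnt

/-!
# Weighted sums over primes (prime number theorem)

`∑_{a m < p ≤ b m} log p * f (p / m) = m (∫_a^b f + o(1))` for `f` continuous on `[a, b]`.
-/

set_option autoImplicit false

namespace Pool.Agent.H76.HF

open Finset Filter Topology

/-- The sum of `log p * f (p / m)` over the primes `a m < p ≤ b m`. -/
noncomputable def wS (f : ℝ → ℝ) (a b : ℝ) (m : ℕ) : ℝ :=
  ∑ p ∈ (Ioc ⌊a * m⌋₊ ⌊b * m⌋₊).filter Nat.Prime, Real.log p * f (p / m)

theorem theta_mul_tendsto {c : ℝ} (hc : 0 ≤ c) :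
    Tendsto (fun m : ℕ => Chebyshev.theta (c * m) / m) atTop (𝓝 c) := by
  rcases hc.eq_or_lt with rfl | hc
  · have e : (fun m : ℕ => Chebyshev.theta ((0 : ℝ) * m) / m) = fun _ => 0 := by
      funext m
      rw [zero_mul, Chebyshev.theta_zero, zero_div]
    rw [e]
    exact tendsto_const_nhds
  · have h1 : Tendsto (fun m : ℕ => ((⌊c * (m : ℝ)⌋₊ : ℕ) : ℝ) / m) atTop (𝓝 c) :=
      (tendsto_nat_floor_mul_div_atTop hc.le).comp tendsto_natCast_atTop_atTop
    have h2 : Tendsto (fun m : ℕ => ⌊c * (m : ℝ)⌋₊) atTop atTop :=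
      tendsto_nat_floor_atTop.comp
        ((tendsto_id.const_mul_atTop hc).comp tendsto_natCast_atTop_atTop)
    have h3 := (Pool.Agent.H11.NW.theta_div_tendsto.comp h2).mul h1
    rw [one_mul] at h3
    refine h3.congr' ?_
    filter_upwards [h2.eventually_ge_atTop 1] with m hm
    have hm0 : ((⌊c * (m : ℝ)⌋₊ : ℕ) : ℝ) ≠ 0 := by
      have : (1 : ℝ) ≤ ((⌊c * (m : ℝ)⌋₊ : ℕ) : ℝ) := by exact_mod_cast hm
      linarith
    simp only [Function.comp_apply]
    rw [← Chebyshev.theta_eq_theta_coe_floor]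
    field_simp

/-- The primes of `(a m, b m]`. -/
theorem theta_sub_mul {a b : ℝ} (hab : a ≤ b) (m : ℕ) :
    Chebyshev.theta (b * m) - Chebyshev.theta (a * m) =
      ∑ p ∈ (Ioc ⌊a * m⌋₊ ⌊b * m⌋₊).filter Nat.Prime, Real.log p := by
  rw [← Pool.Agent.H11.NW.theta_sub _ _ (Nat.floor_le_floor
    (mul_le_mul_of_nonneg_right hab (Nat.cast_nonneg m))),
    ← Chebyshev.theta_eq_theta_coe_floor, ← Chebyshev.theta_eq_theta_coe_floor]

theorem wS_add {f : ℝ → ℝ} {a b c : ℝ} (hab : a ≤ b) (hbc : b ≤ c) (m : ℕ) :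
    wS f a c m = wS f a b m + wS f b c m := by
  unfold wS
  have h1 : ⌊a * m⌋₊ ≤ ⌊b * m⌋₊ :=
    Nat.floor_le_floor (mul_le_mul_of_nonneg_right hab (Nat.cast_nonneg m))
  have h2 : ⌊b * m⌋₊ ≤ ⌊c * m⌋₊ :=
    Nat.floor_le_floor (mul_le_mul_of_nonneg_right hbc (Nat.cast_nonneg m))
  rw [← Ioc_union_Ioc_eq_Ioc h1 h2, filter_union, sum_union]
  refine disjoint_filter_filter ?_
  rw [Finset.disjoint_left]
  intro p hp hq
  rw [mem_Ioc] at hp hq
  omega

theorem wS_sum {f : ℝ → ℝ} (x : ℕ → ℝ) (hx : Monotone x) (k m : ℕ) :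
    wS f (x 0) (x k) m = ∑ i ∈ range k, wS f (x i) (x (i + 1)) m := by
  induction k with
  | zero => simp [wS]
  | succ k ih =>
    rw [sum_range_succ, ← ih]
    exact wS_add (hx (Nat.zero_le k)) (hx (Nat.le_succ k)) m

theorem wS_const (c a b : ℝ) (hab : a ≤ b) (m : ℕ) :
    wS (fun _ => c) a b m = c * (Chebyshev.theta (b * m) - Chebyshev.theta (a * m)) := by
  rw [theta_sub_mul hab, wS, mul_sum]
  exact sum_congr rfl fun p _ => mul_comm _ _

/-- Comparison of two weights. -/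
theorem wS_le {f g : ℝ → ℝ} {a b : ℝ} (m : ℕ)
    (h : ∀ x, a < x → x ≤ b → f x ≤ g x) : wS f a b m ≤ wS g a b m := by
  unfold wS
  refine sum_le_sum fun p hp => ?_
  rw [mem_filter, mem_Ioc] at hp
  obtain ⟨⟨h1, h2⟩, hpp⟩ := hp
  have hl : 0 ≤ Real.log p := Real.log_natCast_nonneg p
  rcases Nat.eq_zero_or_pos m with rfl | hm
  · exfalso
    have h3 : p ≤ 0 := by simpa using h2
    exact hpp.pos.ne' (Nat.le_zero.mp h3)
  have hm0 : (0 : ℝ) < m := by exact_mod_cast hm
  refine mul_le_mul_of_nonneg_left (h _ ?_ ?_) hl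
  · rw [lt_div_iff₀ hm0]
    exact Nat.lt_of_floor_lt h1
  · rw [div_le_iff₀ hm0]
    exact (Nat.le_floor_iff' hpp.pos.ne').mp h2

theorem wS_sub_const {f : ℝ → ℝ} {a b c ε : ℝ} (hab : a ≤ b) (m : ℕ)
    (h : ∀ x ∈ Set.Icc a b, |f x - c| ≤ ε) :
    |wS f a b m - c * (Chebyshev.theta (b * m) - Chebyshev.theta (a * m))| ≤
      ε * (Chebyshev.theta (b * m) - Chebyshev.theta (a * m)) := by
  have h1 : wS f a b m ≤ wS (fun _ => c + ε) a b m :=
    wS_le m fun x hx1 hx2 => by
      have := (abs_le.mp (h x ⟨hx1.le, hx2⟩)).2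
      linarith
  have h2 : wS (fun _ => c - ε) a b m ≤ wS f a b m :=
    wS_le m fun x hx1 hx2 => by
      have := (abs_le.mp (h x ⟨hx1.le, hx2⟩)).1
      linarith
  rw [wS_const _ _ _ hab] at h1 h2
  rw [abs_le]
  constructor <;> nlinarith

theorem theta_diff_tendsto {a b : ℝ} (ha : 0 ≤ a) (hab : a ≤ b) :
    Tendsto (fun m : ℕ => (Chebyshev.theta (b * m) - Chebyshev.theta (a * m)) / m) atTop
      (𝓝 (b - a)) := by
  have := (theta_mul_tendsto (ha.trans hab)).sub (theta_mul_tendsto ha)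
  refine this.congr fun m => ?_
  rw [sub_div]

/-- **Weighted prime number theorem.** -/
theorem wS_tendsto {f : ℝ → ℝ} {a b : ℝ} (ha : 0 ≤ a) (hab : a ≤ b)
    (hf : ContinuousOn f (Set.Icc a b)) :
    Tendsto (fun m : ℕ => wS f a b m / m) atTop (𝓝 (∫ x in a..b, f x)) := by
  rw [Metric.tendsto_atTop']
  intro η hη
  set ε : ℝ := η / (3 * (b - a + 1)) with hε
  have hL : 0 < b - a + 1 := by linarith
  have hε0 : 0 < ε := by positivity
  have hεL : ε * (b - a + 1) = η / 3 := by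
    rw [hε]
    field_simp
  obtain ⟨δ, hδ, hu⟩ := Metric.uniformContinuousOn_iff_le.mp
    (isCompact_Icc.uniformContinuousOn_of_continuous hf) ε hε0
  obtain ⟨k, hk⟩ := exists_nat_gt ((b - a) / δ)
  have hk0 : (0 : ℝ) < k := lt_of_le_of_lt (div_nonneg (by linarith) hδ.le) hk
  have hstep : (b - a) / k ≤ δ := by
    rw [div_le_iff₀ hk0]
    have := (div_lt_iff₀ hδ).mp hk
    linarith
  have hstep0 : 0 ≤ (b - a) / k := div_nonneg (by linarith) hk0.le
  set x : ℕ → ℝ := fun i => a + i * ((b - a) / k) with hx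
  have hx0 : x 0 = a := by simp [hx]
  have hxk : x k = b := by
    simp only [hx]
    field_simp
    ring
  have hxs : ∀ i, x (i + 1) - x i = (b - a) / k := fun i => by
    simp only [hx]
    push_cast
    ring
  have hxm : Monotone x := monotone_nat_of_le_succ fun i => by
    have := hxs i
    linarith
  have hmem : ∀ i < k, ∀ y ∈ Set.Icc (x i) (x (i + 1)), |f y - f (x i)| ≤ ε := by
    intro i hi y hy
    have h1 : a ≤ x i := hx0 ▸ hxm (Nat.zero_le i)
    have h2 : x (i + 1) ≤ b := hxk ▸ hxm (Nat.succ_le_of_lt hi)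
    have h3 := hxs i
    have := hu y ⟨h1.trans hy.1, hy.2.trans h2⟩ (x i) ⟨h1, (hy.1.trans hy.2).trans h2⟩ (by
      rw [Real.dist_eq, abs_of_nonneg (by linarith [hy.1])]
      linarith [hy.2])
    rwa [Real.dist_eq] at this
  -- the step function
  set T : ℕ → ℕ → ℝ := fun i m => Chebyshev.theta (x (i + 1) * m) - Chebyshev.theta (x i * m)
    with hT
  have hTt : ∀ i, Tendsto (fun m : ℕ => T i m / m) atTop (𝓝 ((b - a) / k)) := by
    intro i
    rw [← hxs i]
    exact theta_diff_tendsto (ha.trans (hx0 ▸ hxm (Nat.zero_le i))) (hxm (Nat.le_succ i))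
  have hR : Tendsto (fun m : ℕ => ∑ i ∈ range k, f (x i) * (T i m / m)) atTop
      (𝓝 (∑ i ∈ range k, f (x i) * ((b - a) / k))) :=
    tendsto_finsetSum _ fun i _ => (hTt i).const_mul _
  have hS : Tendsto (fun m : ℕ => ∑ i ∈ range k, ε * (T i m / m)) atTop
      (𝓝 (∑ _i ∈ range k, ε * ((b - a) / k))) :=
    tendsto_finsetSum _ fun i _ => (hTt i).const_mul _
  have hSv : ∑ _i ∈ range k, ε * ((b - a) / k) = ε * (b - a) := by
    rw [sum_const, card_range, nsmul_eq_mul]
    field_simp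
  rw [hSv] at hS
  -- the integral
  have hint : ∀ i < k, IntervalIntegrable f MeasureTheory.volume (x i) (x (i + 1)) := by
    intro i hi
    refine (hf.mono ?_).intervalIntegrable_of_Icc (hxm (Nat.le_succ i))
    exact Set.Icc_subset_Icc (hx0 ▸ hxm (Nat.zero_le i)) (hxk ▸ hxm (Nat.succ_le_of_lt hi))
  have hI : ∫ y in a..b, f y = ∑ i ∈ range k, ∫ y in x i..x (i + 1), f y := by
    rw [intervalIntegral.sum_integral_adjacent_intervals hint, hx0, hxk]
  have hI2 : |(∫ y in a..b, f y) - ∑ i ∈ range k, f (x i) * ((b - a) / k)| ≤ ε * (b - a) := by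
    rw [hI, ← sum_sub_distrib, ← hSv]
    refine (abs_sum_le_sum_abs _ _).trans (sum_le_sum fun i hi => ?_)
    rw [mem_range] at hi
    have e : f (x i) * ((b - a) / k) = ∫ _y in x i..x (i + 1), f (x i) := by
      rw [intervalIntegral.integral_const, hxs, smul_eq_mul, mul_comm]
    rw [e, ← intervalIntegral.integral_sub (hint i hi) intervalIntegrable_const]
    have := intervalIntegral.norm_integral_le_of_norm_le_const (a := x i) (b := x (i + 1))
      (C := ε) (f := fun y => f y - f (x i)) (fun y hy => by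
        rw [Set.uIoc_of_le (hxm (Nat.le_succ i))] at hy
        rw [Real.norm_eq_abs]
        exact hmem i hi y ⟨hy.1.le, hy.2⟩)
    rw [Real.norm_eq_abs, hxs, abs_of_nonneg hstep0] at this
    exact this
  have e1 := (Metric.tendsto_nhds.mp hR) (η / 12) (by positivity)
  have e2 := (Metric.tendsto_nhds.mp hS) (η / 12) (by positivity)
  have hfin : ∀ᶠ m : ℕ in atTop, dist (wS f a b m / m) (∫ x in a..b, f x) < η := by
    filter_upwards [e1, e2, eventually_ge_atTop 1] with m h1 h2 hm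
    have hm0 : (0 : ℝ) < m := by exact_mod_cast hm
    have h3 : |wS f a b m - ∑ i ∈ range k, f (x i) * T i m| ≤ ∑ i ∈ range k, ε * T i m := by
      have := wS_sum (f := f) x hxm k m
      rw [hx0, hxk] at this
      rw [this, ← sum_sub_distrib]
      refine (abs_sum_le_sum_abs _ _).trans (sum_le_sum fun i hi => ?_)
      rw [mem_range] at hi
      exact wS_sub_const (hxm (Nat.le_succ i)) m (hmem i hi)
    have h4 : |wS f a b m / m - ∑ i ∈ range k, f (x i) * (T i m / m)| ≤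
        ∑ i ∈ range k, ε * (T i m / m) := by
      have e3 : wS f a b m / m - ∑ i ∈ range k, f (x i) * (T i m / m) =
          (wS f a b m - ∑ i ∈ range k, f (x i) * T i m) / m := by
        rw [sub_div, sum_div]
        simp only [mul_div_assoc]
      have e4 : ∑ i ∈ range k, ε * (T i m / m) = (∑ i ∈ range k, ε * T i m) / m := by
        rw [sum_div]
        simp only [mul_div_assoc]
      rw [e3, e4, abs_div, abs_of_pos hm0]
      exact div_le_div_of_nonneg_right h3 hm0.le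
    rw [Real.dist_eq] at h1 h2 ⊢
    have h5 := abs_lt.mp h1
    have h6 := abs_lt.mp h2
    have h7 := abs_le.mp h4
    have h8 := abs_le.mp hI2
    have h9 : ε * (b - a) ≤ η / 3 := by
      rw [← hεL]
      exact mul_le_mul_of_nonneg_left (by linarith) hε0.le
    rw [abs_lt]
    constructor <;> linarith
  obtain ⟨N, hN⟩ := eventually_atTop.mp hfin
  exact ⟨N, fun n hn => hN n hn.le⟩

/-- Eventual upper bound form. -/
theorem wS_eventually_le {f : ℝ → ℝ} {a b c : ℝ} (ha : 0 ≤ a) (hab : a ≤ b)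
    (hf : ContinuousOn f (Set.Icc a b)) (hc : ∫ x in a..b, f x < c) :
    ∀ᶠ m : ℕ in atTop, wS f a b m ≤ c * m := by
  filter_upwards [(wS_tendsto ha hab hf).eventually_lt_const hc, eventually_ge_atTop 1]
    with m h1 h2
  have hm0 : (0 : ℝ) < m := by exact_mod_cast h2
  exact ((div_lt_iff₀ hm0).mp h1).le

/-- Eventual lower bound form. -/
theorem wS_eventually_ge {f : ℝ → ℝ} {a b c : ℝ} (ha : 0 ≤ a) (hab : a ≤ b)
    (hf : ContinuousOn f (Set.Icc a b)) (hc : c < ∫ x in a..b, f x) :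
    ∀ᶠ m : ℕ in atTop, c * m ≤ wS f a b m := by
  filter_upwards [(wS_tendsto ha hab hf).eventually_const_lt hc, eventually_ge_atTop 1]
    with m h1 h2
  have hm0 : (0 : ℝ) < m := by exact_mod_cast h2
  exact ((lt_div_iff₀ hm0).mp h1).le

/-- `∑_{p ≤ X m} log p (X m - p) = m ^ 2 (X ^ 2 / 2 + o(1))`. -/
theorem hinge_tendsto {X : ℝ} (hX : 0 ≤ X) :
    Tendsto (fun m : ℕ => (∑ p ∈ (Ioc 0 ⌊X * m⌋₊).filter Nat.Prime,
      Real.log p * (X * m - p)) / (m : ℝ) ^ 2) atTop (𝓝 (X ^ 2 / 2)) := by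
  have h := wS_tendsto (f := fun x => X - x) le_rfl hX (by fun_prop)
  have e : ∫ x in (0 : ℝ)..X, (X - x) = X ^ 2 / 2 := by
    rw [intervalIntegral.integral_sub (by simp) (by simp)]
    simp
    ring
  rw [e] at h
  refine h.congr' ?_
  filter_upwards [eventually_ge_atTop 1] with m hm
  have hm0 : (m : ℝ) ≠ 0 := by
    have : (1 : ℝ) ≤ m := by exact_mod_cast hm
    linarith
  unfold wS
  rw [zero_mul, Nat.floor_zero, sum_div, sum_div]
  refine sum_congr rfl fun p _ => ?_
  field_simp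

end Pool.Agent.H76.HF
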