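import Pool.Agent.H76.HF.Ps
import Pool.Agent.H71.NB.Win

/-!
# Weighted sums over primes in the classes of a real character
-/

set_option autoImplicit false

namespace Pool.Agent.H76.HF

open Finset Filter Topology

/-- The sum of `w n * f (n / m)` over `a m < n ≤ b m`. -/
noncomputable def gS (w : ℕ → ℝ) (f : ℝ → ℝ) (a b : ℝ) (m : ℕ) : ℝ :=
  ∑ n ∈ Ioc ⌊a * m⌋₊ ⌊b * m⌋₊, w n * f (n / m)

theorem gS_add {w : ℕ → ℝ} {f : ℝ → ℝ} {a b c : ℝ} (hab : a ≤ b) (hbc : b ≤ c) (m : ℕ) :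
    gS w f a c m = gS w f a b m + gS w f b c m := by
  unfold gS
  have h1 : ⌊a * m⌋₊ ≤ ⌊b * m⌋₊ :=
    Nat.floor_le_floor (mul_le_mul_of_nonneg_right hab (Nat.cast_nonneg m))
  have h2 : ⌊b * m⌋₊ ≤ ⌊c * m⌋₊ :=
    Nat.floor_le_floor (mul_le_mul_of_nonneg_right hbc (Nat.cast_nonneg m))
  rw [← Ioc_union_Ioc_eq_Ioc h1 h2, sum_union]
  rw [Finset.disjoint_left]
  intro p hp hq
  rw [mem_Ioc] at hp hq
  omega

theorem gS_sum {w : ℕ → ℝ} {f : ℝ → ℝ} (x : ℕ → ℝ) (hx : Monotone x) (k m : ℕ) :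
    gS w f (x 0) (x k) m = ∑ i ∈ range k, gS w f (x i) (x (i + 1)) m := by
  induction k with
  | zero => simp [gS]
  | succ k ih =>
    rw [sum_range_succ, ← ih]
    exact gS_add (hx (Nat.zero_le k)) (hx (Nat.le_succ k)) m

theorem gS_sub_const {w v : ℕ → ℝ} (hwv : ∀ n, |w n| ≤ v n) {f : ℝ → ℝ} {a b c ε : ℝ}
    (m : ℕ) (hm : 1 ≤ m) (h : ∀ x ∈ Set.Icc a b, |f x - c| ≤ ε) :
    |gS w f a b m - c * ∑ n ∈ Ioc ⌊a * m⌋₊ ⌊b * m⌋₊, w n| ≤
      ε * ∑ n ∈ Ioc ⌊a * m⌋₊ ⌊b * m⌋₊, v n := by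
  unfold gS
  rw [mul_sum, mul_sum, ← sum_sub_distrib]
  refine (abs_sum_le_sum_abs _ _).trans (sum_le_sum fun n hn => ?_)
  rw [mem_Ioc] at hn
  have hm0 : (0 : ℝ) < m := by exact_mod_cast hm
  have hn0 : n ≠ 0 := by omega
  have hx : (n : ℝ) / m ∈ Set.Icc a b := by
    constructor
    · rw [le_div_iff₀ hm0]
      exact (Nat.lt_of_floor_lt hn.1).le
    · rw [div_le_iff₀ hm0]
      exact (Nat.le_floor_iff' hn0).mp hn.2
  have e : w n * f (n / m) - c * w n = (f (n / m) - c) * w n := by ring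
  rw [e, abs_mul]
  have h1 := h _ hx
  exact mul_le_mul h1 (hwv n) (abs_nonneg _) ((abs_nonneg _).trans h1)

/-- **Weighted mean values**: if the sums of `w` over `(c m, d m]` are `(δ (d - c) + o(1)) m` and those
of a majorant `v` are `(δ' (d - c) + o(1)) m`, then the sums of `w n * f (n / m)` over `(a m, b m]` are
`(δ ∫ f + o(1)) m`. -/
theorem gS_tendsto {w v : ℕ → ℝ} (hwv : ∀ n, |w n| ≤ v n) {δ δ' : ℝ} {a b : ℝ} (hab : a ≤ b)
    (hw : ∀ c d, a ≤ c → c ≤ d → d ≤ b → Tendsto (fun m : ℕ =>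
      (∑ n ∈ Ioc ⌊c * m⌋₊ ⌊d * m⌋₊, w n) / m) atTop (𝓝 (δ * (d - c))))
    (hv : ∀ c d, a ≤ c → c ≤ d → d ≤ b → Tendsto (fun m : ℕ =>
      (∑ n ∈ Ioc ⌊c * m⌋₊ ⌊d * m⌋₊, v n) / m) atTop (𝓝 (δ' * (d - c))))
    {f : ℝ → ℝ} (hf : ContinuousOn f (Set.Icc a b)) :
    Tendsto (fun m : ℕ => gS w f a b m / m) atTop (𝓝 (δ * ∫ x in a..b, f x)) := by
  rw [Metric.tendsto_atTop']
  intro η hη
  have hL : 0 < (|δ| + |δ'|) * (b - a) + 1 := by positivity
  set ε : ℝ := η / (3 * ((|δ| + |δ'|) * (b - a) + 1)) with hε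
  have hε0 : 0 < ε := by positivity
  have hεL : ε * ((|δ| + |δ'|) * (b - a) + 1) = η / 3 := by
    rw [hε]
    field_simp
  obtain ⟨ρ, hρ, hu⟩ := Metric.uniformContinuousOn_iff_le.mp
    (isCompact_Icc.uniformContinuousOn_of_continuous hf) ε hε0
  obtain ⟨k, hk⟩ := exists_nat_gt ((b - a) / ρ)
  have hk0 : (0 : ℝ) < k := lt_of_le_of_lt (div_nonneg (by linarith) hρ.le) hk
  have hstep : (b - a) / k ≤ ρ := by
    rw [div_le_iff₀ hk0]
    have := (div_lt_iff₀ hρ).mp hk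
    linarith
  have hstep0 : 0 ≤ (b - a) / k := div_nonneg (by linarith) hk0.le
  set x : ℕ → ℝ := fun i => a + i * ((b - a) / k) with hx
  have hx0 : x 0 = a := by simp [hx]
  have hxk : x k = b := by
    simp only [hx]
    field_simp
    ring
  have hxs : ∀ i, x (i + 1) - x i = (b - a) / k := fun i => by
    simp only [hx]
    push_cast
    ring
  have hxm : Monotone x := monotone_nat_of_le_succ fun i => by
    have := hxs i
    linarith
  have hmem : ∀ i < k, ∀ y ∈ Set.Icc (x i) (x (i + 1)), |f y - f (x i)| ≤ ε := by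
    intro i hi y hy
    have h1 : a ≤ x i := hx0 ▸ hxm (Nat.zero_le i)
    have h2 : x (i + 1) ≤ b := hxk ▸ hxm (Nat.succ_le_of_lt hi)
    have h3 := hxs i
    have := hu y ⟨h1.trans hy.1, hy.2.trans h2⟩ (x i) ⟨h1, (hy.1.trans hy.2).trans h2⟩ (by
      rw [Real.dist_eq, abs_of_nonneg (by linarith [hy.1])]
      linarith [hy.2])
    rwa [Real.dist_eq] at this
  set T : ℕ → ℕ → ℝ := fun i m => ∑ n ∈ Ioc ⌊x i * m⌋₊ ⌊x (i + 1) * m⌋₊, w n with hT
  set U : ℕ → ℕ → ℝ := fun i m => ∑ n ∈ Ioc ⌊x i * m⌋₊ ⌊x (i + 1) * m⌋₊, v n with hU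
  have hTt : ∀ i ∈ range k, Tendsto (fun m : ℕ => T i m / m) atTop
      (𝓝 (δ * ((b - a) / k))) := by
    intro i hi
    rw [mem_range] at hi
    rw [← hxs i]
    exact hw _ _ (hx0 ▸ hxm (Nat.zero_le i)) (hxm (Nat.le_succ i))
      (hxk ▸ hxm (Nat.succ_le_of_lt hi))
  have hUt : ∀ i ∈ range k, Tendsto (fun m : ℕ => U i m / m) atTop
      (𝓝 (δ' * ((b - a) / k))) := by
    intro i hi
    rw [mem_range] at hi
    rw [← hxs i]
    exact hv _ _ (hx0 ▸ hxm (Nat.zero_le i)) (hxm (Nat.le_succ i))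
      (hxk ▸ hxm (Nat.succ_le_of_lt hi))
  have hR : Tendsto (fun m : ℕ => ∑ i ∈ range k, f (x i) * (T i m / m)) atTop
      (𝓝 (∑ i ∈ range k, f (x i) * (δ * ((b - a) / k)))) :=
    tendsto_finsetSum _ fun i hi => (hTt i hi).const_mul _
  have hS : Tendsto (fun m : ℕ => ∑ i ∈ range k, ε * (U i m / m)) atTop
      (𝓝 (∑ _i ∈ range k, ε * (δ' * ((b - a) / k)))) :=
    tendsto_finsetSum _ fun i hi => (hUt i hi).const_mul _
  have hSv : ∀ c : ℝ, ∑ _i ∈ range k, ε * (c * ((b - a) / k)) = ε * (c * (b - a)) := by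
    intro c
    rw [sum_const, card_range, nsmul_eq_mul]
    field_simp
  rw [hSv] at hS
  have hint : ∀ i < k, IntervalIntegrable f MeasureTheory.volume (x i) (x (i + 1)) := by
    intro i hi
    refine (hf.mono ?_).intervalIntegrable_of_Icc (hxm (Nat.le_succ i))
    exact Set.Icc_subset_Icc (hx0 ▸ hxm (Nat.zero_le i)) (hxk ▸ hxm (Nat.succ_le_of_lt hi))
  have hI : ∫ y in a..b, f y = ∑ i ∈ range k, ∫ y in x i..x (i + 1), f y := by
    rw [intervalIntegral.sum_integral_adjacent_intervals hint, hx0, hxk]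
  have hI2 : |δ * (∫ y in a..b, f y) - ∑ i ∈ range k, f (x i) * (δ * ((b - a) / k))| ≤
      ε * (|δ| * (b - a)) := by
    rw [hI, mul_sum, ← sum_sub_distrib, ← hSv]
    refine (abs_sum_le_sum_abs _ _).trans (sum_le_sum fun i hi => ?_)
    rw [mem_range] at hi
    have e : f (x i) * ((b - a) / k) = ∫ _y in x i..x (i + 1), f (x i) := by
      rw [intervalIntegral.integral_const, hxs, smul_eq_mul, mul_comm]
    have e' : f (x i) * (δ * ((b - a) / k)) = δ * (f (x i) * ((b - a) / k)) := by ring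
    rw [e', e, ← mul_sub, ← intervalIntegral.integral_sub (hint i hi) intervalIntegrable_const,
      abs_mul]
    have := intervalIntegral.norm_integral_le_of_norm_le_const (a := x i) (b := x (i + 1))
      (C := ε) (f := fun y => f y - f (x i)) (fun y hy => by
        rw [Set.uIoc_of_le (hxm (Nat.le_succ i))] at hy
        rw [Real.norm_eq_abs]
        exact hmem i hi y ⟨hy.1.le, hy.2⟩)
    rw [Real.norm_eq_abs, hxs, abs_of_nonneg hstep0] at this
    calc |δ| * |∫ y in x i..x (i + 1), (f y - f (x i))| ≤ |δ| * (ε * ((b - a) / k)) :=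
          mul_le_mul_of_nonneg_left this (abs_nonneg _)
      _ = ε * (|δ| * ((b - a) / k)) := by ring
  have e1 := (Metric.tendsto_nhds.mp hR) (η / 12) (by positivity)
  have e2 := (Metric.tendsto_nhds.mp hS) (η / 12) (by positivity)
  have hfin : ∀ᶠ m : ℕ in atTop, dist (gS w f a b m / m) (δ * ∫ x in a..b, f x) < η := by
    filter_upwards [e1, e2, eventually_ge_atTop 1] with m h1 h2 hm
    have hm0 : (0 : ℝ) < m := by exact_mod_cast hm
    have h3 : |gS w f a b m - ∑ i ∈ range k, f (x i) * T i m| ≤ ∑ i ∈ range k, ε * U i m := by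
      have := gS_sum (w := w) (f := f) x hxm k m
      rw [hx0, hxk] at this
      rw [this, ← sum_sub_distrib]
      refine (abs_sum_le_sum_abs _ _).trans (sum_le_sum fun i hi => ?_)
      rw [mem_range] at hi
      exact gS_sub_const hwv m hm (hmem i hi)
    have h4 : |gS w f a b m / m - ∑ i ∈ range k, f (x i) * (T i m / m)| ≤
        ∑ i ∈ range k, ε * (U i m / m) := by
      have e3 : gS w f a b m / m - ∑ i ∈ range k, f (x i) * (T i m / m) =
          (gS w f a b m - ∑ i ∈ range k, f (x i) * T i m) / m := by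
        rw [sub_div, sum_div]
        simp only [mul_div_assoc]
      have e4 : ∑ i ∈ range k, ε * (U i m / m) = (∑ i ∈ range k, ε * U i m) / m := by
        rw [sum_div]
        simp only [mul_div_assoc]
      rw [e3, e4, abs_div, abs_of_pos hm0]
      exact div_le_div_of_nonneg_right h3 hm0.le
    rw [Real.dist_eq] at h1 h2 ⊢
    have h5 := abs_lt.mp h1
    have h6 := abs_lt.mp h2
    have h7 := abs_le.mp h4
    have h8 := abs_le.mp hI2
    have h9 : ε * (|δ| * (b - a)) + ε * (δ' * (b - a)) ≤ η / 3 := by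
      rw [← hεL]
      have h10 : δ' ≤ |δ'| := le_abs_self _
      have h11 : 0 ≤ b - a := by linarith
      have h12 : ε * (δ' * (b - a)) ≤ ε * (|δ'| * (b - a)) :=
        mul_le_mul_of_nonneg_left (mul_le_mul_of_nonneg_right h10 h11) hε0.le
      nlinarith
    have h13 : 0 ≤ ε * (|δ| * (b - a)) := by
      have : 0 ≤ b - a := by linarith
      positivity
    rw [abs_lt]
    constructor <;> linarith
  obtain ⟨N, hN⟩ := eventually_atTop.mp hfin
  exact ⟨N, fun n hn => hN n hn.le⟩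

/-- `log p` on the primes. -/
noncomputable def lp (n : ℕ) : ℝ := if n.Prime then Real.log n else 0

/-- `(D / p) log p` on the primes. -/
noncomputable def lchi (D : ℤ) (n : ℕ) : ℝ :=
  if n.Prime then (jacobiSym D n : ℝ) * Real.log n else 0

theorem lp_nonneg (n : ℕ) : 0 ≤ lp n := by
  unfold lp
  split_ifs
  · exact Real.log_natCast_nonneg n
  · exact le_rfl

theorem abs_lchi_le (D : ℤ) (n : ℕ) : |lchi D n| ≤ lp n := by
  unfold lchi lp
  split_ifs
  · rw [abs_mul, abs_of_nonneg (Real.log_natCast_nonneg n)]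
    have h := Pool.Agent.H71.NB.jac_vals D n
    have : |(jacobiSym D n : ℝ)| ≤ 1 := abs_le.mpr ⟨by linarith [h.1], by linarith [h.2]⟩
    exact mul_le_of_le_one_left (Real.log_natCast_nonneg n) this
  · simp

theorem lp_sum (u v : ℕ) : ∑ n ∈ Ioc u v, lp n = ∑ p ∈ (Ioc u v).filter Nat.Prime, Real.log p := by
  rw [sum_filter]
  rfl

theorem lchi_sum (D : ℤ) (u v : ℕ) : ∑ n ∈ Ioc u v, lchi D n =
    ∑ p ∈ (Ioc u v).filter Nat.Prime, (jacobiSym D p : ℝ) * Real.log p := by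
  rw [sum_filter]
  rfl

theorem lp_tendsto {c d : ℝ} (hc : 0 ≤ c) (hcd : c ≤ d) : Tendsto (fun m : ℕ =>
    (∑ n ∈ Ioc ⌊c * m⌋₊ ⌊d * m⌋₊, lp n) / m) atTop (𝓝 (1 * (d - c))) := by
  rw [one_mul]
  refine (theta_diff_tendsto hc hcd).congr fun m => ?_
  rw [theta_sub_mul hcd, lp_sum]

theorem lchi_tendsto (D : ℤ) (hD0 : D ≠ 0) (hD : ¬ IsSquare D) {c d : ℝ} (hc : 0 < c)
    (hcd : c ≤ d) : Tendsto (fun m : ℕ =>
      (∑ n ∈ Ioc ⌊c * m⌋₊ ⌊d * m⌋₊, lchi D n) / m) atTop (𝓝 (0 * (d - c))) := by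
  rw [zero_mul, Metric.tendsto_nhds]
  intro ε hε
  have hd : 0 < d := hc.trans_le hcd
  have ht : Tendsto (fun m : ℕ => ⌊d * (m : ℝ)⌋₊) atTop atTop :=
    tendsto_nat_floor_atTop.comp ((tendsto_id.const_mul_atTop hd).comp tendsto_natCast_atTop_atTop)
  have ht2 : Tendsto (fun m : ℕ => ⌊c * (m : ℝ)⌋₊) atTop atTop :=
    tendsto_nat_floor_atTop.comp ((tendsto_id.const_mul_atTop hc).comp tendsto_natCast_atTop_atTop)
  have h1 := Pool.Agent.H71.NB.win_chi D hD0 hD (ε / (2 * d)) (by positivity)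
  filter_upwards [ht.eventually h1, ht2.eventually_ge_atTop 2, eventually_ge_atTop 1]
    with m h2 h3 hm
  have hm0 : (0 : ℝ) < m := by exact_mod_cast hm
  have h4 : ⌊c * (m : ℝ)⌋₊ ≤ ⌊d * (m : ℝ)⌋₊ :=
    Nat.floor_le_floor (mul_le_mul_of_nonneg_right hcd hm0.le)
  have h5 := h2 _ _ h3 h4 le_rfl
  rw [Real.dist_eq, sub_zero, lchi_sum, abs_div, abs_of_pos hm0, div_lt_iff₀ hm0]
  refine h5.trans_lt ?_
  have h6 : ((⌊d * (m : ℝ)⌋₊ : ℕ) : ℝ) ≤ d * m := Nat.floor_le (by positivity)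
  calc ε / (2 * d) * ((⌊d * (m : ℝ)⌋₊ : ℕ) : ℝ) ≤ ε / (2 * d) * (d * m) :=
        mul_le_mul_of_nonneg_left h6 (by positivity)
    _ = ε / 2 * m := by field_simp
    _ < ε * m := by nlinarith [mul_pos hε hm0]

/-- The sum of `log p * f (p / m)` over the primes `a m < p ≤ b m` with `(D / p) = -1`. -/
noncomputable def nS (D : ℤ) (f : ℝ → ℝ) (a b : ℝ) (m : ℕ) : ℝ :=
  ∑ p ∈ (Ioc ⌊a * m⌋₊ ⌊b * m⌋₊).filter (fun p => Nat.Prime p ∧ jacobiSym D p = -1),
    Real.log p * f (p / m)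

theorem lchi_weighted (D : ℤ) (hD0 : D ≠ 0) (hD : ¬ IsSquare D) {f : ℝ → ℝ} {a b : ℝ}
    (ha : 0 < a) (hab : a ≤ b) (hf : ContinuousOn f (Set.Icc a b)) :
    Tendsto (fun m : ℕ => gS (lchi D) f a b m / m) atTop (𝓝 0) := by
  have := gS_tendsto (abs_lchi_le D) hab (δ := 0) (δ' := 1)
    (fun c d hc hcd _ => lchi_tendsto D hD0 hD (ha.trans_le hc) hcd)
    (fun c d hc hcd _ => lp_tendsto (ha.le.trans hc) hcd) hf
  rwa [zero_mul] at this

theorem nS_eq (D : ℤ) (f : ℝ → ℝ) {a b : ℝ} (m : ℕ)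
    (h : ∀ p ∈ Ioc ⌊a * m⌋₊ ⌊b * m⌋₊, Nat.Prime p → jacobiSym D p ≠ 0) :
    nS D f a b m = (wS f a b m - gS (lchi D) f a b m) / 2 := by
  unfold nS wS gS lchi
  rw [sum_filter, sum_filter, ← sum_sub_distrib, sum_div]
  refine sum_congr rfl fun p hp => ?_
  by_cases hpp : p.Prime
  · have h0 := h p hp hpp
    have h3 : jacobiSym D p = 1 ∨ jacobiSym D p = -1 := by
      have h1 := (Pool.Agent.H71.NB.jac_vals D p).1
      have h2 := (Pool.Agent.H71.NB.jac_vals D p).2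
      have h1' : -1 ≤ jacobiSym D p := by exact_mod_cast (by linarith : (-1 : ℝ) ≤ jacobiSym D p)
      have h2' : jacobiSym D p ≤ 1 := by exact_mod_cast (by linarith : (jacobiSym D p : ℝ) ≤ 1)
      omega
    rcases h3 with h3 | h3
    · rw [if_neg (by rw [h3]; simp), if_pos hpp, if_pos hpp, h3]
      push_cast
      ring
    · rw [if_pos ⟨hpp, h3⟩, if_pos hpp, if_pos hpp, h3]
      push_cast
      ring
  · simp [hpp]

/-- **The class `(D / p) = -1`** contains half of the mass, for every continuous weight. -/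
theorem nS_tendsto (D : ℤ) (hD0 : D ≠ 0) (hD : ¬ IsSquare D) {f : ℝ → ℝ} {a b : ℝ}
    (ha : 0 < a) (hab : a ≤ b) (hf : ContinuousOn f (Set.Icc a b)) :
    Tendsto (fun m : ℕ => nS D f a b m / m) atTop (𝓝 ((∫ x in a..b, f x) / 2)) := by
  have h1 := ((wS_tendsto ha.le hab hf).sub (lchi_weighted D hD0 hD ha hab hf)).div_const 2
  rw [sub_zero] at h1
  refine h1.congr' ?_
  have ht2 : Tendsto (fun m : ℕ => ⌊a * (m : ℝ)⌋₊) atTop atTop :=
    tendsto_nat_floor_atTop.comp ((tendsto_id.const_mul_atTop ha).comp tendsto_natCast_atTop_atTop)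
  filter_upwards [ht2.eventually_ge_atTop D.natAbs] with m hm
  rw [nS_eq]
  · rw [sub_div]
    ring
  · intro p hp hpp h0
    rw [mem_Ioc] at hp
    have : NeZero p := ⟨hpp.ne_zero⟩
    rw [jacobiSym.eq_zero_iff_not_coprime] at h0
    have h2 : p ∣ D.natAbs := by
      by_contra h3
      apply h0
      have h4 : Nat.Coprime D.natAbs p := ((Nat.Prime.coprime_iff_not_dvd hpp).mpr h3).symm
      rw [Int.gcd]
      simpa using h4
    have h3 := Nat.le_of_dvd (Int.natAbs_pos.mpr hD0) h2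
    omega

end Pool.Agent.H76.HF
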